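import Pool.Agent.H94.CB.M63
import Pool.Agent.H94.CB.M85
import Pool.Agent.H94.CB.M93

/-!
# EG Bad: the bad values

Let `Ω` be a pluricanonical form on the surface without zeros outside a hypersurface section `q = 0`.  The bad values are the values `c` such that the fibre over `c` has a critical point or `q` vanishes along a germ of a curve in this fibre.
They are isolated, and all non-constant entire curves in fibres are over bad values.
-/

set_option autoImplicit false

open Topology Filter Metric MvPolynomial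

namespace Pool.Agent.EG

attribute [-instance] ProperSMul.toContinuousSMul

open Pool.Agent.H36.BP (EN fs wd formT isCone_transport tan_transport)
open Pool.Agent.H14.PP (IsCone Chart Form Tan)
open Pool.Agent.H62.EF
open Pool.Agent.H62.FC (Homog)
open Pool.Agent.H17 (PN)
open Pool.Agent.H17BP (Surface IsForm)
open Pool.Agent.H17LG.Variety (FunField IsLogGeneralType)
open Pool.Agent.H13.SM (conTan cone)
open Pool.Agent.H17EF

variable {N : ℕ} {Λ : AddSubgroup ℂ} {P : Ideal (MvPolynomial (Fin (N + 1)) ℂ)}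

/-- a `Λ`-invariant set of isolated points is uniformly separated -/
theorem separated (hΛ : Lat Λ) {B : Set ℂ} (hinv : ∀ c ∈ B, ∀ l ∈ Λ, c + l ∈ B) (hiso : ∀ c, ∃ ε : ℝ, 0 < ε ∧ ∀ c' ∈ B, ‖c' - c‖ < ε → c' = c) :
    ∃ δ : ℝ, 0 < δ ∧ ∀ b ∈ B, ∀ b' ∈ B, b ≠ b' → δ ≤ ‖b - b'‖ := by
  obtain ⟨R, hR, hco⟩ := hΛ.cocompact
  choose ε hε hB using hiso
  obtain ⟨δ, hδ, h⟩ := lebesgue_number_lemma_of_metric (isCompact_closedBall (0 : ℂ) R) (c := fun c : ℂ => ball c (ε c))
    (fun c => isOpen_ball) (fun c _ => Set.mem_iUnion.2 ⟨c, mem_ball_self (hε c)⟩)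
  refine ⟨δ, hδ, fun b hb b' hb' hne => ?_⟩
  by_contra hlt
  push Not at hlt
  obtain ⟨l, hl, hbl⟩ := hco b
  have h1 : b - l ∈ B := by
    have := hinv b hb (-l) (Λ.neg_mem hl)
    rwa [← sub_eq_add_neg] at this
  have h2 : b' - l ∈ B := by
    have := hinv b' hb' (-l) (Λ.neg_mem hl)
    rwa [← sub_eq_add_neg] at this
  obtain ⟨c, hc⟩ := h (b - l) (by rwa [mem_closedBall_zero_iff])
  have h3 : b - l = c := by
    refine hB c _ h1 ?_
    have := hc (mem_ball_self hδ)
    rwa [mem_ball, dist_eq_norm] at this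
  have h4 : b' - l = c := by
    refine hB c _ h2 ?_
    have := hc (show b' - l ∈ ball (b - l) δ by
      rw [mem_ball, dist_eq_norm, sub_sub_sub_cancel_right, norm_sub_rev]
      exact hlt)
    rwa [mem_ball, dist_eq_norm] at this
  apply hne
  have := h3.trans h4.symm
  linear_combination this

variable [P.IsPrime]

/-- a pluricanonical form on the surface without zeros outside a hypersurface section -/
theorem exists_good_form {z : Fin 2 → FunField P} (hP : Homog P) (hz : IsTranscendenceBasis ℂ z)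
    (hsm : ∀ y : Fin (N + 1) → ℂ, y ≠ 0 → (∀ Q ∈ P, eval y Q = 0) → Module.finrank ℂ (conTan P y) ≤ 3) (hgt : GT P 2) :
    ∃ (M : ℕ) (Ω : Form (coneE P) M 1) (q : EN N → ℂ) (d : ℕ), 1 ≤ M ∧ (∀ x, AnalyticAt ℂ q x) ∧
      (∀ (c : ℂ) (x : EN N), q (c • x) = c ^ d * q x) ∧ (∀ x ∈ coneE P, ¬ ∀ᶠ y in 𝓝 x, y ∈ coneE P → q y = 0) ∧
      Ω.NoZeroOff {x | x ∈ coneE P ∧ q x = 0} := by
  have hS : Surface (cone P) := Pool.Agent.H13.SM.surface_cone hP hz fun y hy => hsm y hy.1 hy.2
  have hLGT : Pool.Agent.H62.FC.LogGeneralType P ∅ 2 := by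
    have h1 : (Pool.Agent.H62.FC.OnBoundary P ∅ (w := 2)) = fun _ => False := by
      funext E
      apply propext
      constructor
      · rintro ⟨j, -, -, i, hi, -⟩
        exact absurd hi (Finset.notMem_empty i)
      · exact False.elim
    unfold Pool.Agent.H62.FC.LogGeneralType
    rw [h1]
    exact hgt
  obtain ⟨M, Om, D₀, Q₀, hM, hQ₀, hQ₀P, hOm, hnz⟩ := Pool.Agent.H68.KR.exists_form_of_smooth hP hz (fun y hy hyP => hsm y hy hyP) hLGT
  have hOm' : IsForm (cone P) M 1 Om := hOm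
  refine ⟨M, formT (LE N) hOm', fun y => eval ((LE N).symm y) Q₀, D₀, hM, ?_, ?_, ?_, ?_⟩
  · intro y
    have h1 : AnalyticAt ℂ (fun x : Fin (N + 1) → ℂ => eval x Q₀) ((LE N).symm y) := by
      have := AnalyticAt.aeval_mvPolynomial (𝕜 := ℂ) (A := ℂ) (f := fun (x : Fin (N + 1) → ℂ) i => x i) (z := (LE N).symm y)
        (fun i => (ContinuousLinearMap.proj (R := ℂ) (φ := fun _ : Fin (N + 1) => ℂ) i).analyticAt _) Q₀
      simpa [MvPolynomial.aeval_eq_eval] using this
    exact AnalyticAt.comp (g := fun x : Fin (N + 1) → ℂ => eval x Q₀) (f := fun y : EN N => (LE N).symm y) h1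
      (((LE N).symm : EN N →L[ℂ] (Fin (N + 1) → ℂ)).analyticAt y)
  · intro c x
    show eval ((LE N).symm (c • x)) Q₀ = c ^ D₀ * eval ((LE N).symm x) Q₀
    rw [map_smul, eval_smul_form hQ₀]
  · intro x hx hev
    obtain ⟨σ, τ, hc, h0⟩ := hS.chart ((LE N).symm x) hx
    have h1 := Pool.Agent.H13.SM.frequently_ne_zero hP hz (fun y hy => hsm y hy.1 hy.2) hc hQ₀ hQ₀P
    apply h1
    have h2 : Tendsto (fun p => (LE N) (σ p)) (𝓝 (0 : ℂ × ℂ)) (𝓝 x) := by
      have h3 : ContinuousAt (fun p => (LE N) (σ p)) 0 := (LE N).continuous.continuousAt.comp hc.σ_an.continuousAt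
      have h4 := h3.tendsto
      rw [h0, ContinuousLinearEquiv.apply_symm_apply] at h4
      exact h4
    filter_upwards [h2.eventually hev, hc.σ_mem] with p hp hp'
    have h5 : (LE N) (σ p) ∈ coneE P := by
      show (LE N).symm ((LE N) (σ p)) ∈ cone P
      rw [ContinuousLinearEquiv.symm_apply_apply]
      exact hp'
    have h6 := hp h5
    rw [ContinuousLinearEquiv.symm_apply_apply] at h6
    simpa using h6
  · intro x hx hxT v w hv hw hind
    refine hnz ((LE N).symm x) hx ?_ _ (tan_transport (LE N) hv) _ (tan_transport (LE N) hw) ?_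
    · rintro ⟨h1, h2⟩
      exact hxT ⟨hx, h2⟩
    · have h3 := hind.map' ((LE N).symm : EN N →ₗ[ℂ] (Fin (N + 1) → ℂ)) (LinearMap.ker_eq_bot.2 (LE N).symm.injective)
      have h4 : (((LE N).symm : EN N →ₗ[ℂ] (Fin (N + 1) → ℂ)) ∘ ![x, v, w] : Fin 3 → Fin (N + 1) → ℂ) =
          ![(LE N).symm x, (LE N).symm v, (LE N).symm w] := by
        funext i
        fin_cases i <;> rfl
      rw [h4] at h3
      exact h3

end Pool.Agent.EG
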